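import Pool.Agent.helper52.FS.SpecE

/-!
# MP_07c750, project FS, row `fs:FUG` (the fractal uncertainty principle with exceptional times)
-/

open scoped MatrixGroups ContDiff Topology UpperHalfPlane ComplexConjugate
open UpperHalfPlane MeasureTheory Filter Set

set_option autoImplicit false

namespace Pool.Agent.FS

/-- the number of multiples of `h` in an interval -/
theorem FUG_cnt (h α β : ℝ) (hh : 0 < h) (hαβ : α ≤ β) (F : Finset ℕ) (hF : ∀ t ∈ F, α ≤ t * h ∧ t * h ≤ β) :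
    (F.card : ℝ) ≤ (β - α) / h + 1 := by
  rcases F.eq_empty_or_nonempty with rfl | hne
  · have h1 : 0 ≤ (β - α) / h := div_nonneg (by linarith) hh.le
    rw [Finset.card_empty, Nat.cast_zero]
    linarith
  · have h1 : F ⊆ Finset.Icc (F.min' hne) (F.max' hne) := fun t ht => Finset.mem_Icc.2 ⟨F.min'_le t ht, F.le_max' t ht⟩
    have h2 := Finset.card_le_card h1
    rw [Nat.card_Icc] at h2
    have h3 := (hF _ (F.min'_mem hne)).1
    have h4 := (hF _ (F.max'_mem hne)).2
    have h5 : F.min' hne ≤ F.max' hne := F.min'_le _ (F.max'_mem hne)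
    have h6 : (F.card : ℝ) ≤ (F.max' hne : ℝ) - F.min' hne + 1 := by
      have h7 : F.card + F.min' hne ≤ F.max' hne + 1 := by omega
      have h8 := (Nat.cast_le (α := ℝ)).2 h7
      push_cast at h8
      linarith
    have h7 : ((F.max' hne : ℝ) - F.min' hne) ≤ (β - α) / h := by
      rw [le_div_iff₀ hh]
      nlinarith
    linarith

/-- the number of good scales -/
theorem FUG_good (h r1 T σ : ℝ) (n : ℕ) (B B' A : Finset ℕ) (hh : 0 < h) (hr1 : 0 ≤ r1) (hT : 1 ≤ T) (hσ : 0 ≤ σ)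
    (hA : ∀ t ∈ Finset.range (⌊(n : ℝ) / h⌋₊ + 1), (σ + T ≤ t * h ∧ t * h + r1 ≤ n - T ∧ (∀ b ∈ B, ¬ (t * h - T ≤ b ∧ (b : ℝ) ≤ t * h + T)) ∧
      ∀ b ∈ B', ¬ (t * h - σ - T ≤ b ∧ (b : ℝ) ≤ t * h + r1 - σ + T)) → t ∈ A) :
    (n : ℝ) / h - (2 + (2 * T + r1) / h + 1 / h) * (1 + σ + B.card + B'.card) ≤ A.card := by
  classical
  set R : Finset ℕ := Finset.range (⌊(n : ℝ) / h⌋₊ + 1) with hR
  have hRn : ∀ t ∈ R, (t : ℝ) * h ≤ n := by
    intro t ht
    rw [hR, Finset.mem_range, Nat.lt_succ_iff] at ht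
    have h1 : (t : ℝ) ≤ (n : ℝ) / h := (Nat.cast_le.2 ht).trans (Nat.floor_le (by positivity))
    rwa [le_div_iff₀ hh] at h1
  have hRc : (n : ℝ) / h ≤ R.card := by
    rw [hR, Finset.card_range]
    push_cast
    exact (Nat.lt_floor_add_one _).le
  set F1 : Finset ℕ := R.filter fun t => (t : ℝ) * h ≤ σ + T with hF1
  set F2 : Finset ℕ := R.filter fun t => (n : ℝ) - T - r1 ≤ t * h with hF2
  set G1 : ℕ → Finset ℕ := fun b => R.filter fun t : ℕ => (b : ℝ) - T ≤ t * h ∧ (t : ℝ) * h ≤ b + T with hG1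
  set G2 : ℕ → Finset ℕ := fun b => R.filter fun t : ℕ => (b : ℝ) + σ - T - r1 ≤ t * h ∧ (t : ℝ) * h ≤ b + σ + T with hG2
  have c1 : (F1.card : ℝ) ≤ (σ + T) / h + 1 := by
    have := FUG_cnt h 0 (σ + T) hh (by linarith) F1 (fun t ht => ⟨by positivity, (Finset.mem_filter.1 ht).2⟩)
    rwa [sub_zero] at this
  have c2 : (F2.card : ℝ) ≤ (T + r1) / h + 1 := by
    have := FUG_cnt h ((n : ℝ) - T - r1) n hh (by linarith) F2 (fun t ht => ⟨(Finset.mem_filter.1 ht).2, hRn t (Finset.mem_filter.1 ht).1⟩)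
    have h2 : (n : ℝ) - ((n : ℝ) - T - r1) = T + r1 := by ring
    rwa [h2] at this
  have c3 : ∀ b : ℕ, ((G1 b).card : ℝ) ≤ (2 * T) / h + 1 := by
    intro b
    have := FUG_cnt h ((b : ℝ) - T) (b + T) hh (by linarith) (G1 b) (fun t ht => (Finset.mem_filter.1 ht).2)
    have h2 : (b : ℝ) + T - ((b : ℝ) - T) = 2 * T := by ring
    rwa [h2] at this
  have c4 : ∀ b : ℕ, ((G2 b).card : ℝ) ≤ (2 * T + r1) / h + 1 := by
    intro b
    have := FUG_cnt h ((b : ℝ) + σ - T - r1) (b + σ + T) hh (by linarith) (G2 b) (fun t ht => (Finset.mem_filter.1 ht).2)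
    have h2 : (b : ℝ) + σ + T - ((b : ℝ) + σ - T - r1) = 2 * T + r1 := by ring
    rwa [h2] at this
  have hsub : R ⊆ ((((A ∪ F1) ∪ F2) ∪ B.biUnion G1) ∪ B'.biUnion G2) := by
    intro t ht
    by_cases t1 : σ + T ≤ t * h
    · by_cases t2 : (t : ℝ) * h + r1 ≤ n - T
      · by_cases t3 : ∀ b ∈ B, ¬ (t * h - T ≤ b ∧ (b : ℝ) ≤ t * h + T)
        · by_cases t4 : ∀ b ∈ B', ¬ (t * h - σ - T ≤ b ∧ (b : ℝ) ≤ t * h + r1 - σ + T)
          · have := hA t ht ⟨t1, t2, t3, t4⟩
            simp only [Finset.mem_union]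
            tauto
          · push Not at t4
            obtain ⟨b, hb, hb1, hb2⟩ := t4
            refine Finset.mem_union_right _ (Finset.mem_biUnion.2 ⟨b, hb, Finset.mem_filter.2 ⟨ht, by linarith, by linarith⟩⟩)
        · push Not at t3
          obtain ⟨b, hb, hb1, hb2⟩ := t3
          refine Finset.mem_union_left _ (Finset.mem_union_right _ (Finset.mem_biUnion.2 ⟨b, hb, Finset.mem_filter.2 ⟨ht, by linarith, by linarith⟩⟩))
      · push Not at t2
        refine Finset.mem_union_left _ (Finset.mem_union_left _ (Finset.mem_union_right _ (Finset.mem_filter.2 ⟨ht, by linarith⟩)))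
    · push Not at t1
      refine Finset.mem_union_left _ (Finset.mem_union_left _ (Finset.mem_union_left _ (Finset.mem_union_right _ (Finset.mem_filter.2 ⟨ht, t1.le⟩))))
  have b1 : ((B.biUnion G1).card : ℝ) ≤ B.card * ((2 * T) / h + 1) := by
    have h1 : ((B.biUnion G1).card : ℝ) ≤ ∑ b ∈ B, ((G1 b).card : ℝ) := by exact_mod_cast Finset.card_biUnion_le
    refine h1.trans ((Finset.sum_le_sum fun b _ => c3 b).trans (le_of_eq ?_))
    rw [Finset.sum_const, nsmul_eq_mul]
  have b2 : ((B'.biUnion G2).card : ℝ) ≤ B'.card * ((2 * T + r1) / h + 1) := by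
    have h1 : ((B'.biUnion G2).card : ℝ) ≤ ∑ b ∈ B', ((G2 b).card : ℝ) := by exact_mod_cast Finset.card_biUnion_le
    refine h1.trans ((Finset.sum_le_sum fun b _ => c4 b).trans (le_of_eq ?_))
    rw [Finset.sum_const, nsmul_eq_mul]
  have hcard : (R.card : ℝ) ≤ A.card + F1.card + F2.card + (B.biUnion G1).card + (B'.biUnion G2).card := by
    have e1 := Finset.card_le_card hsub
    have e2 := Finset.card_union_le (((A ∪ F1) ∪ F2) ∪ B.biUnion G1) (B'.biUnion G2)
    have e3 := Finset.card_union_le ((A ∪ F1) ∪ F2) (B.biUnion G1)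
    have e4 := Finset.card_union_le (A ∪ F1) F2
    have e5 := Finset.card_union_le A F1
    have e6 : R.card ≤ A.card + F1.card + F2.card + (B.biUnion G1).card + (B'.biUnion G2).card := by omega
    exact_mod_cast e6
  have hi : 0 < 1 / h := by positivity
  have q1 : (σ + T) / h = (σ + T) * (1 / h) := by ring
  have q2 : (T + r1) / h = (T + r1) * (1 / h) := by ring
  have q3 : (2 * T) / h = (2 * T) * (1 / h) := by ring
  have q4 : (2 * T + r1) / h = (2 * T + r1) * (1 / h) := by ring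
  rw [q1] at c1
  rw [q2] at c2
  rw [q3] at b1
  rw [q4] at b2 ⊢
  set i : ℝ := 1 / h with hidef
  have hB0 : (0 : ℝ) ≤ B.card := Nat.cast_nonneg _
  have hB1 : (0 : ℝ) ≤ B'.card := Nat.cast_nonneg _
  have u1 : 0 ≤ T * i := by positivity
  have u2 : 0 ≤ r1 * i := by positivity
  have u3 : 0 ≤ B.card * (1 + r1 * i + i) := by positivity
  have u4 : 0 ≤ B'.card * (1 + i) := by positivity
  have u5 : 0 ≤ σ * (2 + (2 * T + r1) * i) := by positivity
  have key : (σ + T) * i + 1 + ((T + r1) * i + 1) + B.card * (2 * T * i + 1) + B'.card * ((2 * T + r1) * i + 1) ≤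
      (2 + (2 * T + r1) * i + i) * (1 + σ + B.card + B'.card) := by
    nlinarith
  linarith

theorem FUG_proof (h0 : FIG_stmt) : FUG_stmt := by
  classical
  intro c T hc hc1 hT
  obtain ⟨θ, R1, H, hθ, hθ1, hR1, hH, HF⟩ := h0 c hc hc1
  have hH1 : (1 : ℝ) < H := by exact_mod_cast hH
  have hHp : (0 : ℝ) < H := by linarith
  have hh : 0 < Real.log H := Real.log_pos hH1
  have hr1 : 0 ≤ Real.log R1 := Real.log_nonneg hR1
  have hlam : 0 < -Real.log θ := by
    have := Real.log_neg hθ hθ1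
    linarith
  have hl4 : 0 < Real.log 4 := Real.log_pos (by norm_num)
  set h : ℝ := Real.log H with hhd
  set r1 : ℝ := Real.log R1 with hr1d
  set lam : ℝ := -Real.log θ with hlamd
  have hK0 : 0 < 2 + (2 * T + r1) / h + 1 / h := by positivity
  refine ⟨lam / h, Real.log 4 + lam * (2 + (2 * T + r1) / h + 1 / h), by positivity, by positivity, ?_⟩
  intro σ n B B' Y J a hσ hY H1 H2
  have hpow : ∀ t : ℕ, (H : ℝ) ^ t = Real.exp (t * h) := by
    intro t
    rw [Real.exp_nat_mul, hhd, Real.exp_log hHp]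
  set A : Finset ℕ := (Finset.range (⌊(n : ℝ) / h⌋₊ + 1)).filter fun t : ℕ => (σ + T ≤ t * h ∧ t * h + r1 ≤ n - T ∧ (∀ b ∈ B, ¬ (t * h - T ≤ b ∧ (b : ℝ) ≤ t * h + T)) ∧
      ∀ b ∈ B', ¬ (t * h - σ - T ≤ b ∧ (b : ℝ) ≤ t * h + r1 - σ + T)) with hAd
  have hAc := FUG_good h r1 T σ n B B' A hh hr1 hT hσ (fun t ht hg => Finset.mem_filter.2 ⟨ht, hg⟩)
  have hS : 0 ≤ ∑ j ∈ J, ‖a j‖ ^ 2 := Finset.sum_nonneg fun j _ => by positivity
  have main := HF A Y J a hY (by
    intro t ht v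
    obtain ⟨-, g1, g2, g3, g4⟩ := Finset.mem_filter.1 ht
    have e1 : (((H ^ t : ℕ)) : ℝ) = Real.exp (t * h) := by
      rw [Nat.cast_pow, hpow]
    have e2 : 1 / Real.exp (t * h) = Real.exp (-(t * h)) := by
      rw [Real.exp_neg, one_div]
    have e3 : c / Real.exp (t * h) = c * Real.exp (-(t * h)) := by
      rw [Real.exp_neg, div_eq_mul_inv]
    rw [e1, e2, e3]
    exact H1 (t * h) (by positivity) (by linarith) g3 v) (by
    intro t ht R hR hR' ξ
    obtain ⟨-, g1, g2, g3, g4⟩ := Finset.mem_filter.1 ht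
    rw [hpow] at hR hR'
    have hRp : 0 < R := (Real.exp_pos _).trans_le hR
    have l1 : t * h ≤ Real.log R := by
      rw [Real.le_log_iff_exp_le hRp]
      exact hR
    have l2 : Real.log R ≤ t * h + r1 := by
      rw [Real.log_le_iff_le_exp hRp, Real.exp_add, hr1d, Real.exp_log (by linarith), mul_comm]
      exact hR'
    have := H2 (Real.log R) (by linarith) (by linarith) (fun b hb hb2 => g4 b hb ⟨by linarith [hb2.1], by linarith [hb2.2]⟩) ξ
    rwa [Real.exp_log hRp] at this)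
  refine main.trans (mul_le_mul_of_nonneg_right ?_ hS)
  have hθe : θ ^ A.card = Real.exp (A.card * (-lam)) := by
    rw [Real.exp_nat_mul, hlamd, neg_neg, Real.exp_log hθ]
  rw [hθe]
  have h4 : (4 : ℝ) = Real.exp (Real.log 4) := (Real.exp_log (by norm_num)).symm
  calc 4 * Real.exp (A.card * (-lam)) = Real.exp (Real.log 4 + A.card * (-lam)) := by
        rw [Real.exp_add, Real.exp_log (by norm_num)]
    _ ≤ _ := by
        refine Real.exp_le_exp.2 ?_
        have hB0 : (0 : ℝ) ≤ B.card := Nat.cast_nonneg _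
        have hB1 : (0 : ℝ) ≤ B'.card := Nat.cast_nonneg _
        have m1 := mul_le_mul_of_nonneg_left hAc hlam.le
        have m2 : Real.log 4 * 1 ≤ Real.log 4 * (1 + σ + B.card + B'.card) := mul_le_mul_of_nonneg_left (by linarith) hl4.le
        have m3 : lam / h * n = lam * (n / h) := by ring
        rw [m3]
        nlinarith [m1, m2]

end Pool.Agent.FS
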