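import Pool.Agent.helper52.FS.SpecD

/-!
# MP_07c750, project FS, row `fs:FSK` (finitely many open sets)
-/

open scoped MatrixGroups ContDiff Topology UpperHalfPlane ComplexConjugate
open UpperHalfPlane MeasureTheory Filter Set

set_option autoImplicit false

namespace Pool.Agent.FS

open Pool.Agent.RS
open Pool.Agent.MS (bq BB BA SF pf)
open Pool.Agent.EN (XG MG mkX mkM fl pr)

/-- the function of finitely many open sets -/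
theorem FSK_un (h1 : PFO_stmt) (h2 : PFU_stmt) (Γ : Subgroup SL(2, ℝ)) (hΓ : QU.SurfaceGroup Γ) (O : ℕ → Set (XG Γ)) :
    ∀ m : ℕ, (∀ i < m + 1, IsOpen (O i) ∧ (O i).Nonempty) → ∃ c R0 C3 : ℝ, 0 < c ∧ c < 1 ∧ 1 ≤ R0 ∧ 1 ≤ C3 ∧
      ∀ n : ℕ, 1 ≤ n → ∃ Ψ Ψa Ψn Ψl : SL(2, ℝ) → ℝ, PF Γ c R0 C3 n Ψ Ψa Ψn Ψl ∧
        ∀ x : XG Γ, (∃ i < m + 1, ∀ t, fl Γ t x ∉ O i) → x ∈ IR.one Γ Ψ := by
  intro m
  induction m with
  | zero =>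
    intro hO
    obtain ⟨c, R0, C3, hc, hc1, hR, hC, H⟩ := h1 Γ (O 0) hΓ (hO 0 (by omega)).1 (hO 0 (by omega)).2
    refine ⟨c, R0, C3, hc, hc1, hR, hC, fun n hn => ?_⟩
    obtain ⟨Ψ, Ψa, Ψn, Ψl, hP, hx⟩ := H n hn
    refine ⟨Ψ, Ψa, Ψn, Ψl, hP, ?_⟩
    rintro x ⟨i, hi, hit⟩
    have hi0 : i = 0 := by omega
    subst hi0
    exact hx x hit
  | succ m ih =>
    intro hO
    obtain ⟨c1, R1, C1, hc1, hc11, hR1, hC1, H1⟩ := ih (fun i hi => hO i (by omega))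
    obtain ⟨c2, R2, C2, hc2, hc21, hR2, hC2, H2⟩ := h1 Γ (O (m + 1)) hΓ (hO (m + 1) (by omega)).1 (hO (m + 1) (by omega)).2
    obtain ⟨c, R0, C3, hc, hc1', hR, hC, H⟩ := h2 Γ c1 R1 C1 c2 R2 C2 hc1 hc11 hR1 hC1 hc2 hc21 hR2 hC2
    refine ⟨c, R0, C3, hc, hc1', hR, hC, fun n hn => ?_⟩
    obtain ⟨Ψ1, Ψa1, Ψn1, Ψl1, hP1, hx1⟩ := H1 n hn
    obtain ⟨Ψ2, Ψa2, Ψn2, Ψl2, hP2, hx2⟩ := H2 n hn
    obtain ⟨Ψ, Ψa, Ψn, Ψl, hP, hU⟩ := H n Ψ1 Ψa1 Ψn1 Ψl1 Ψ2 Ψa2 Ψn2 Ψl2 hP1 hP2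
    refine ⟨Ψ, Ψa, Ψn, Ψl, hP, ?_⟩
    rintro x ⟨i, hi, hit⟩
    rcases Nat.lt_succ_iff_lt_or_eq.1 hi with h | h
    · exact hU (Or.inl (hx1 x ⟨i, h, hit⟩))
    · subst h
      exact hU (Or.inr (hx2 x hit))

theorem FSK_proof (h0 : LFP_stmt) (h1 : PFO_stmt) (h2 : PFU_stmt) : FSK_stmt := by
  intro Γ μ K hΓ hμ hK hGP m O hO
  rcases Nat.eq_zero_or_pos m with hm | hm
  · subst hm
    have he : {x : XG Γ | ∃ i < 0, ∀ t, fl Γ t x ∉ O i} = ∅ := by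
      ext x
      simp
    rw [he, measure_empty]
    exact bot_le
  obtain ⟨m', rfl⟩ : ∃ m', m = m' + 1 := ⟨m - 1, by omega⟩
  obtain ⟨c, R0, C3, hc, hc1, hR, hC, H⟩ := FSK_un h1 h2 Γ hΓ O m' hO
  set S : Set (XG Γ) := {x : XG Γ | ∃ i < m' + 1, ∀ t, fl Γ t x ∉ O i} with hS
  have key : ∀ e : ℝ, 0 < e → e ≤ 1 → 2 * μ.real S ≤ 1 + e := by
    intro e he he1
    have hδ0 : 0 < (e / 200) ^ 2 := by positivity
    have hδ1 : (e / 200) ^ 2 ≤ 1 := by nlinarith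
    set δ : ℝ := (e / 200) ^ 2 with hδ
    set κ0 : ℝ := Real.pi * δ / (8 * K * C3) with hκ
    have hK0 : 0 < K := by linarith
    have hC0 : 0 < C3 := by linarith
    have hκ0 : 0 < κ0 := by positivity
    have hκ1 : κ0 ≤ 1 := by
      rw [hκ, div_le_one (by positivity)]
      have hp : Real.pi ≤ 4 := Real.pi_le_four
      have hKC : 1 ≤ K * C3 := one_le_mul_of_one_le_of_one_le hK hC
      nlinarith [Real.pi_pos]
    obtain ⟨n0, Hn⟩ := h0 Γ c R0 C3 κ0 (δ ^ 2 / 128) hc hc1 hR hC hκ0 hκ1 (by positivity)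
    obtain ⟨Ψ, Ψa, Ψn, Ψl, hP, hx⟩ := H (max n0 1) (le_max_right _ _)
    set n : ℕ := max n0 1 with hn
    have hE : 0 < Real.exp (n : ℝ) := Real.exp_pos _
    have hE1 : 1 ≤ Real.exp (n : ℝ) := Real.one_le_exp (by positivity)
    have hεc : Real.pi / (4 * (2 * K * (C3 * Real.exp n) / δ)) = κ0 * Real.exp (-(n : ℝ)) := by
      rw [hκ, Real.exp_neg]
      field_simp
      ring
    have hL := Hn n Ψ Ψa Ψn Ψl Ψ Ψa Ψn Ψl (κ0 * Real.exp (-(n : ℝ))) (le_max_left _ _) hP hP rfl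
    have hG := hGP e C3 δ (2 * K * (C3 * Real.exp n) / δ) (κ0 * Real.exp (-(n : ℝ))) (C3 * Real.exp n) (κ0 * Real.exp (-(n : ℝ)) / 100) n
      Ψ Ψa Ψn Ψl Ψ Ψa Ψn Ψl he he1 hC hδ0 le_rfl rfl hεc.symm (by positivity) hP.sf hP.sf hP.nn hP.nn hP.bn hP.bl
      (fun g => (hP.bn g).trans (le_mul_of_one_le_right hC0.le hE1)) hP.bl hL
    have hsub : S ⊆ IR.one Γ Ψ := fun x hxS => hx x hxS
    have hm := measureReal_mono (μ := μ) hsub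
    linarith
  have hS2 : μ.real S ≤ 1 / 2 := by
    by_contra hcon
    push Not at hcon
    have h3 : 0 < min 1 (μ.real S - 1 / 2) := lt_min one_pos (by linarith)
    have h4 := key _ h3 (min_le_left _ _)
    have h5 := min_le_right 1 (μ.real S - 1 / 2)
    linarith
  have hfin : μ S ≠ ⊤ := measure_ne_top μ S
  have h6 : μ S = ENNReal.ofReal (μ.real S) := (ENNReal.ofReal_toReal hfin).symm
  rw [h6]
  refine (ENNReal.ofReal_le_ofReal hS2).trans (le_of_eq ?_)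
  rw [ENNReal.ofReal_div_of_pos (by norm_num), ENNReal.ofReal_one]
  norm_num

end Pool.Agent.FS
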