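import Pool.Agent.helper78.FS.Spec

/-!
# fs:PKG (helper96): packing
-/

set_option autoImplicit false

namespace Pool.Agent.helper78.FS

open Finset Real

theorem PKG_coord (p q : E3) (k : Fin 3) : |p k - q k| ≤ dist p q := by
  have h := PiLp.norm_apply_le (p - q) k
  rw [dist_eq_norm]
  simpa [Real.norm_eq_abs] using h

theorem PKG_card (a b : ℝ) (M : ℝ) (h : b - a = M) : (Finset.Icc ⌊a⌋ ⌊b⌋).card ≤ ⌈M⌉₊ + 2 := by
  rw [Int.card_Icc]
  have h1 : (⌊b⌋ : ℝ) ≤ b := Int.floor_le b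
  have h2 : a < ⌊a⌋ + 1 := Int.lt_floor_add_one a
  have h3 : M ≤ (⌈M⌉₊ : ℝ) := Nat.le_ceil M
  have h4 : ((⌊b⌋ + 1 - ⌊a⌋ : ℤ) : ℝ) ≤ ((⌈M⌉₊ + 2 : ℕ) : ℤ) := by
    push_cast
    linarith
  have h5 : (⌊b⌋ + 1 - ⌊a⌋ : ℤ) ≤ ((⌈M⌉₊ + 2 : ℕ) : ℤ) := by exact_mod_cast h4
  omega

theorem PKG : PKG_stmt := by
  intro x D s hD hs S hx hsep
  classical
  have hmap : ∀ p ∈ S, (fun k : Fin 3 => ⌊2 * p k / s⌋) ∈
      Fintype.piFinset (fun k : Fin 3 => Finset.Icc ⌊2 * (x k - D) / s⌋ ⌊2 * (x k + D) / s⌋) := by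
    intro p hp
    rw [Fintype.mem_piFinset]
    intro k
    rw [Finset.mem_Icc]
    obtain ⟨h1, h2⟩ := abs_le.1 ((PKG_coord p x k).trans (hx p hp))
    constructor
    · apply Int.floor_le_floor
      gcongr
      linarith
    · apply Int.floor_le_floor
      gcongr
      linarith
  have hinj : Set.InjOn (fun (p : E3) (k : Fin 3) => ⌊2 * p k / s⌋) (S : Set E3) := by
    intro p hp q hq hpq
    by_contra hne
    have h1 := hsep p hp q hq hne
    have h2 : ∀ k : Fin 3, dist (p k) (q k) ^ 2 < s ^ 2 / 4 := by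
      intro k
      have h3 : ⌊2 * p k / s⌋ = ⌊2 * q k / s⌋ := congrFun hpq k
      have h4 := Int.abs_sub_lt_one_of_floor_eq_floor h3
      have h5 : 2 * p k / s - 2 * q k / s = 2 * (p k - q k) / s := by ring
      rw [h5, abs_div, abs_mul, abs_of_pos hs, div_lt_one hs, abs_two] at h4
      rw [Real.dist_eq]
      have h6 : |p k - q k| < s / 2 := by linarith
      have h7 := abs_nonneg (p k - q k)
      nlinarith
    have h3 : dist p q ^ 2 = ∑ k : Fin 3, dist (p k) (q k) ^ 2 := by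
      rw [EuclideanSpace.dist_eq, Real.sq_sqrt]
      positivity
    have h4 : dist p q ^ 2 < s ^ 2 := by
      rw [h3, Fin.sum_univ_three]
      have := h2 0
      have := h2 1
      have := h2 2
      nlinarith [sq_pos_of_pos hs]
    have h5 : s ^ 2 ≤ dist p q ^ 2 := by gcongr
    linarith
  have hc := Finset.card_le_card_of_injOn _ hmap hinj
  refine hc.trans ?_
  rw [Fintype.card_piFinset]
  have h6 : ∀ k : Fin 3, (Finset.Icc ⌊2 * (x k - D) / s⌋ ⌊2 * (x k + D) / s⌋).card ≤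
      ⌈4 * D / s⌉₊ + 2 := fun k => PKG_card _ _ _ (by ring)
  calc ∏ k : Fin 3, (Finset.Icc ⌊2 * (x k - D) / s⌋ ⌊2 * (x k + D) / s⌋).card
      ≤ ∏ _k : Fin 3, (⌈4 * D / s⌉₊ + 2) := Finset.prod_le_prod' fun k _ => h6 k
    _ = (⌈4 * D / s⌉₊ + 2) ^ 3 := by simp

end Pool.Agent.helper78.FS
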