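import Pool.Agent.helper87.FS.Spec

set_option autoImplicit false

namespace Pool.Agent.FS

open Polynomial Matrix Pool.Agent.helper42.NS

theorem BCR_one (P : Pt) (t k : ℕ) (H : Matrix (Fin t) (Fin t) ℤ) (B : Fin k → Fin t → Bool) :
    Bad P H B ↔ crm P H B ≠ 0 := by
  have hmax : P.asIdeal.IsMaximal := P.isMaximal
  have hprime : P.asIdeal.IsPrime := hmax.isPrime
  have hdom : IsDomain (KP P) := Ideal.Quotient.isDomain P.asIdeal
  letI : Field (KP P) := Ideal.Quotient.field P.asIdeal
  constructor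
  · rintro ⟨u, hu, hu0, hB⟩
    have hnt : Nontrivial (EM (KP P) (lamP P) H B) := by
      refine ⟨⟨⟨u, hu, hB⟩, 0, ?_⟩⟩
      intro h0
      exact hu0 (congrArg Subtype.val h0)
    have hpos : 0 < Module.finrank (KP P) (EM (KP P) (lamP P) H B) := Module.finrank_pos
    have h1 : 0 < crm P H B := hpos
    omega
  · intro h
    by_contra hbad
    apply h
    have hbot : EM (KP P) (lamP P) H B = ⊥ := by
      rw [eq_bot_iff]
      intro u hu
      rw [Submodule.mem_bot]
      by_contra hu0
      exact hbad ⟨u, hu.1, hu0, hu.2⟩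
    have h1 : Module.finrank (KP P) (EM (KP P) (lamP P) H B) = 0 := by
      rw [hbot]
      exact finrank_bot _ _
    exact h1

theorem BCR_two (P : Pt) (t k : ℕ) (H : Matrix (Fin t) (Fin t) ℤ) (B : Fin k → Fin t → Bool) :
    crm P H B ≤ crk P H := by
  have hmax : P.asIdeal.IsMaximal := P.isMaximal
  have hprime : P.asIdeal.IsPrime := hmax.isPrime
  have hdom : IsDomain (KP P) := Ideal.Quotient.isDomain P.asIdeal
  letI : Field (KP P) := Ideal.Quotient.field P.asIdeal
  have hle : EM (KP P) (lamP P) H B ≤ EigK (KP P) (lamP P) H := fun u hu => hu.1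
  have h1 : Module.finrank (KP P) (EM (KP P) (lamP P) H B) ≤ Module.finrank (KP P) (EigK (KP P) (lamP P) H) :=
    Submodule.finrank_mono hle
  exact h1

theorem BCR : BCR_stmt := by
  refine ⟨BCR_one, BCR_two, ?_⟩
  intro P k H B
  by_contra h
  obtain ⟨u, _, hu0, _⟩ := (BCR_one P 0 k H B).2 h
  apply hu0
  funext i
  exact i.elim0

end Pool.Agent.FS
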